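import Pool.Agent.helper65.GF.SpecG

/-!
# Row bz:YHZ (helper15) of project BZ (helper65)
-/

set_option autoImplicit false

namespace Pool.Agent.GD

open Finset Metric Filter Topology

/-- Row YHZ. -/
theorem YHZ (h1 : YVB_stmt) (h2 : YHC_stmt) : YHZ_stmt := by
  intro N w x y A r hA hy hA1
  have hb : ∀ m, ‖mom w x m‖ ≤ 1 := H64.mom_norm_le w x hA
  induction r with
  | zero =>
    rw [H64.ZZ_zero, ex_zero, mul_one]
    have h3 := h1 (mom w x) hb A
    simpa using h3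
  | succ r ih =>
    rw [H64.ZZ_succ]
    have hc := h2 N w x A (r + 1) hA hA1 (by omega)
    have hn := norm_add_le (y * ZZ (ex 1 (mom w x)) (ex (-1) (mom w x)) y A r)
      (CC (ex 1 (mom w x)) (ex (-1) (mom w x)) A (r + 1))
    rw [norm_mul, hy, one_mul] at hn
    push_cast
    have e : 1 + ((r : ℝ) + 1) * ((A : ℝ) * (1 - ‖mom w x 1‖ ^ 2) / 2) =
        (1 + (r : ℝ) * ((A : ℝ) * (1 - ‖mom w x 1‖ ^ 2) / 2)) +
          (A : ℝ) * (1 - ‖mom w x 1‖ ^ 2) / 2 := by ring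
    rw [e]
    linarith

end Pool.Agent.GD
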